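import Pool.Agent.W602.GT.MordDefs
import Pool.Agent.TH710.ND.Proj
import Pool.Agent.TH766.CP.Mix
import Pool.Agent.W619.Y.Cond

/-!
# Iterated quotients: the definitions

`IsTower K d κ`: a class of projective varieties, given by their function fields `K` over `ℂ`, with
their dimension `d` and a number `κ`, which is a natural number or `-∞` (`⊥`).
-/

set_option autoImplicit false
set_option linter.overlappingInstances false

open FF IntermediateField Pool.Agent.W602.Cov Pool.Agent.W619.PQ Pool.Agent.W619.TW
open Pool.Agent.W619.X Pool.Agent.W619.Y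

namespace Pool.Agent.TH766.IQ

section

variable {r N Q R : ℕ} {n q : Fin r → ℕ}

/-- A linear form on the `i`-th factor as a linear form on projective `N`-space, which has the same
affine coordinates as the product of the projective `n i`-spaces; the number of the `j`-th affine
coordinate of the `i`-th factor is `e ⟨i, j⟩`. -/
noncomputable def onFactor (e : ((i : Fin r) × Fin (n i)) ≃ Fin N) (i : Fin r)
    (φ : Form (n i)) : Form N :=
  φ ∘ₗ LinearMap.funLeft ℂ ℂ (Fin.cases 0 fun j => (e ⟨i, j⟩).succ)

/-- `V` is an abelian cover `y j ^ m j = ∏ i, ∏ k, ℓ i k (x i) ^ e' j i k` of the product of the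
projective spaces: the hyperplane at infinity of the `i`-th factor is one of the `ℓ i k`, and the
degree of the equations in the coordinates `x i` of the `i`-th factor is divisible by `m j`. In
affine coordinates this is a cover of the affine part of projective `N`-space, and it is written in
this way. -/
structure CoverOfProduct (V : Cover N Q R) (e : ((i : Fin r) × Fin (n i)) ≃ Fin N)
    (e' : ((i : Fin r) × Fin (q i)) ≃ Fin Q) (ℓ : ∀ i, Fin (q i) → Form (n i)) : Prop where
  forms : ∀ i k, V.ℓ (e' ⟨i, k⟩) = onFactor e i (ℓ i k)
  infinity : ∀ i, ∃ (k : Fin (q i)) (c : ℂ), ℓ i k = c • LinearMap.proj 0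
  degrees : ∀ j i, V.m j ∣ ∑ k, V.e j (e' ⟨i, k⟩)

/-- The multiplicities of the cover `V` are at least `n i + 2`: whenever a germ of a curve in the
product of the projective spaces meets the hyperplanes `ℓ i k = 0` with multiplicities `v i k`, not
all `0`, and these multiplicities are compatible with the equations of `V`, at least one of the
numbers `v i k` is at least `n i + 2`. -/
def Multiplicities (V : Cover N Q R) (e' : ((i : Fin r) × Fin (q i)) ≃ Fin Q)
    (ℓ : ∀ i, Fin (q i) → Form (n i)) : Prop :=
  ∀ v : ∀ i, Fin (q i) → ℕ, (∃ i, v i ≠ 0) →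
    (∀ i, ∃ x : Fin (n i + 1) → ℂ, x ≠ 0 ∧ ∀ k, v i k ≠ 0 → ℓ i k x = 0) →
    (∀ j, V.m j ∣ ∑ i, ∑ k, V.e j (e' ⟨i, k⟩) * v i k) → ∃ i k, n i + 2 ≤ v i k

/-- The arrangement consists of the `n + 2` hyperplanes `ℓ (c j) = 0`, which are in general
position: each `n + 1` of the forms are linearly independent. Hyperplanes may be listed several
times. -/
def GeneralPosition {n q : ℕ} (ℓ : Fin q → Form n) (c : Fin (n + 2) → Fin q) : Prop :=
  (∀ j : Fin (n + 2), LinearIndependent ℂ fun a => ℓ (c (j.succAbove a))) ∧
    ∀ i, ∃ (j : Fin (n + 2)) (t : ℂ), ℓ i = t • ℓ (c j)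

open scoped Classical in
/-- The `i`-th factor is of Calabi-Yau type: the arrangement consists of `n i + 2` hyperplanes in
general position, and for each of them the multiplicities `n i + 2` for this hyperplane and `0` for
all others are compatible with the equations of `V`. -/
def CalabiYau (V : Cover N Q R) (e' : ((i : Fin r) × Fin (q i)) ≃ Fin Q)
    (ℓ : ∀ i, Fin (q i) → Form (n i)) (i : Fin r) : Prop :=
  ∃ c : Fin (n i + 2) → Fin (q i), GeneralPosition (ℓ i) c ∧
    ∀ j k, V.m k ∣ ∑ l, V.e k (e' ⟨i, l⟩) *
      (if ∃ t : ℂ, ℓ i l = t • ℓ i (c j) then n i + 2 else 0)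

end

section

variable {r N Q R : ℕ} {n q : Fin r → ℕ}

/-- `K` is the function field of `V`, an abelian cover of the product of the projective `n i`-spaces
(`1 ≤ r`, `1 ≤ n i`) which is branched over the hyperplanes `ℓ i k = 0`, with multiplicities at least
`n i + 2`. -/
structure IsCover (V : Cover N Q R) (e : ((i : Fin r) × Fin (n i)) ≃ Fin N)
    (e' : ((i : Fin r) × Fin (q i)) ≃ Fin Q) (ℓ : ∀ i, Fin (q i) → Form (n i)) (K : Type) [Field K]
    [Algebra ℂ K] (z : Fin (N + 1) → K) (y : Fin R → K) : Prop where
  factors : 1 ≤ r
  dims : ∀ i, 1 ≤ n i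
  cover : CoverOfProduct V e e' ℓ
  free : V.Free
  mult : Multiplicities V e' ℓ
  field : V.FunctionField K z y

open scoped Classical in
/-- The Kodaira dimension of the cover: `-∞` if one of the arrangements is reducible, and otherwise the
sum of the `n i` over the factors which are not of Calabi-Yau type. -/
noncomputable def coverKappa (V : Cover N Q R) (e' : ((i : Fin r) × Fin (q i)) ≃ Fin Q)
    (ℓ : ∀ i, Fin (q i) → Form (n i)) : WithBot ℕ :=
  if ∃ i, Reducible (ℓ i) then ⊥ else ((∑ i with ¬ CalabiYau V e' ℓ i, n i : ℕ) : WithBot ℕ)

end

/-- `K` is the function field, `d` the dimension and `y` the generic point of an irreducible component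
of the projective variety `F = 0`, where the `F i` are nested sums of high powers of linear forms, or
all of them are nested sums of high powers of monomials: at each of at most `h + 1` levels there are at
most `s` summands, and the exponents are at least `E ≥ (n + 1) (h + 1) (2 s + 1) ^ 5`. -/
structure IsNestedComponent {n : ℕ} {ι : Type} (F : ι → MvPolynomial (Fin (n + 1)) ℂ) (s E h : ℕ)
    (K : Type) [Field K] [Algebra ℂ K] (d : ℕ) (y : Fin (n + 1) → K) : Prop where
  towers : Pool.Agent.TH710.ND.HighTowers s E h F
  bound : (n + 1) * ((h + 1) * (2 * s + 1) ^ 5) ≤ E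
  point : Pool.Agent.W602.GT.SubVar F K d y
  component : Pool.Agent.W602.GT.IsComponent F y

section

variable {L : Type} [Field L] [Algebra ℂ L] {s : ℕ}

/-- One of the curves with function fields `F j` is rational. -/
def HasRational (F : Fin s → IntermediateField ℂ L) : Prop :=
  ∃ j, ∃ t : F j, ℂ⟮t⟯ = ⊤

/-- The number of the curves with function fields `F j` which are not elliptic. -/
noncomputable def nonElliptic (F : Fin s → IntermediateField ℂ L) : ℕ :=
  {j | ¬ IsElliptic (F j)}.ncard

open scoped Classical in
/-- `-∞` if one of the curves with function fields `F j` is rational, and otherwise the sum of `κ` and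
of the number of the curves which are not elliptic. -/
noncomputable def addCurves (κ : WithBot ℕ) (F : Fin s → IntermediateField ℂ L) : WithBot ℕ :=
  if HasRational F then ⊥ else κ + ((nonElliptic F : ℕ) : WithBot ℕ)

/-- `L` is the function field of the product of a variety of dimension `d` with function field `M` and
of the curves with function fields `F j` (`j < s`), and the group `G` acts on the product and permutes
the curves through `σ`. -/
structure IsProductAction (d s : ℕ) (M : IntermediateField ℂ L) (F : Fin s → IntermediateField ℂ L)
    (G : Subgroup (L ≃ₐ[ℂ] L)) (σ : G →* Equiv.Perm (Fin s)) : Prop where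
  dim : Algebra.trdeg ℂ L = (d + s : ℕ)
  curve : ∀ j, IsFF ℂ (F j)
  product : M ⊔ (⨆ j, F j) = ⊤
  permutes : ∀ (g : G) j, ∀ f ∈ F j, (g : L ≃ₐ[ℂ] L) f ∈ F (σ g j)

end

open scoped Classical in
/-- **The class of iterated quotients.** It is the smallest class of projective varieties over `ℂ`
(given by their function fields, which are finitely generated, and with their dimensions `d` and
numbers `κ`) which contains

* the point,
* the varieties of general type, with `κ = d`, and the uniruled varieties, with `κ = -∞`,
* the irreducible components of the projective varieties which are given by nested sums of high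
  powers of linear forms, or of monomials (`IsNestedComponent`), with `κ = d`, or `κ = -∞` if they are
  ruled,
* the abelian covers of products of projective spaces which are branched over arbitrary arrangements
  of hyperplanes and have multiplicities at least `n i + 2` (`IsCover`), with `κ = coverKappa`: `-∞`
  if one of the arrangements is reducible and `∑ n i`, the sum over the factors which are not of
  Calabi-Yau type, otherwise,

and which contains with `Y` all quotients `(Y × ∏ C j) / G`, for curves `C j` (with function fields
`F j`) and finite groups `G` which act on the product (with function field `L`) and permute the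
curves (through `σ`), but do not have to preserve `Y`, such that `MixedPos` holds, for instance
such that the fixed locus of each `g ≠ 1` in `G` on the product of the curves is empty or of
codimension at least `7`; the number `κ` of the quotient is `-∞` if one of the curves is rational,
and otherwise the sum of that of `Y` and of the number of the curves which are not elliptic
(`addCurves`). -/
inductive IsTower : (K : Type) → [Field K] → [Algebra ℂ K] → ℕ → WithBot ℕ → Prop
  | point (K : Type) [Field K] [Algebra ℂ K] [Algebra.EssFiniteType ℂ K]
      (h : Algebra.trdeg ℂ K = 0) : IsTower K 0 0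
  | general (K : Type) [Field K] [Algebra ℂ K] [Algebra.EssFiniteType ℂ K] (d : ℕ)
      (h : Pool.Agent.W602.GT.GeneralType ℂ K d) : IsTower K d d
  | uniruled (K : Type) [Field K] [Algebra ℂ K] [Algebra.EssFiniteType ℂ K] (d : ℕ)
      (hd : Algebra.trdeg ℂ K = d) (h : IsUniruled ℂ K d) : IsTower K d ⊥
  | nested {n : ℕ} {ι : Type} (F : ι → MvPolynomial (Fin (n + 1)) ℂ) (s E h : ℕ) (K : Type)
      [Field K] [Algebra ℂ K] (d : ℕ) (y : Fin (n + 1) → K) (hy : IsNestedComponent F s E h K d y) :
      IsTower K d (if Pool.Agent.W602.GT.Ruled ℂ K then ⊥ else (d : WithBot ℕ))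
  | cover (r N Q R : ℕ) (n q : Fin r → ℕ) (ℓ : ∀ i, Fin (q i) → Form (n i)) (V : Cover N Q R)
      (e : ((i : Fin r) × Fin (n i)) ≃ Fin N) (e' : ((i : Fin r) × Fin (q i)) ≃ Fin Q) (K : Type)
      [Field K] [Algebra ℂ K] (z : Fin (N + 1) → K) (y : Fin R → K)
      (hV : IsCover V e e' ℓ K z y) : IsTower K N (coverKappa V e' ℓ)
  | quotient (d s : ℕ) (κ : WithBot ℕ) (L : Type) [Field L] [Algebra ℂ L]
      (M : IntermediateField ℂ L) (hM : IsTower M d κ) (F : Fin s → IntermediateField ℂ L)
      (G : Subgroup (L ≃ₐ[ℂ] L)) [Finite G] (σ : G →* Equiv.Perm (Fin s))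
      (hG : IsProductAction d s M F G σ) (h : MixedPos G σ F) :
      IsTower (fixedField G) (d + s) (addCurves κ F)

end Pool.Agent.TH766.IQ
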