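import Pool.Agent.TH766.IQ.Defs

/-!
# Iterated quotients of Kodaira dimension at least `0`: the definitions
-/

set_option autoImplicit false
set_option linter.overlappingInstances false

open FF IntermediateField Pool.Agent.W602.Cov Pool.Agent.W619.PQ
open Pool.Agent.W619.X Pool.Agent.W619.Y

namespace Pool.Agent.TH766.IQ

open scoped Classical in
/-- **The class of iterated quotients of Kodaira dimension at least `0`.** It is the smallest class of
projective varieties over `ℂ` (given by their function fields, which are finitely generated, and with
their dimensions `d` and natural numbers `a`) which contains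

* the point, with `a = 0`,
* the varieties of general type, with `a = d`,
* the abelian covers of products of projective spaces which are branched over arrangements of
  hyperplanes, none of which is reducible, and have multiplicities at least `n i + 2` (`IsCover`), with
  `a = ∑ n i`, the sum over the factors which are not of Calabi-Yau type,

and which contains with `Y` all quotients `(Y × ∏ C j) / G`, for curves `C j` (with function fields
`F j`), none of them rational, and finite groups `G` which act on the product (with function field
`L`) and permute the curves (through `σ`), but do not have to preserve `Y`, such that `MixedPos`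
holds, for instance such that the fixed locus of each `g ≠ 1` in `G` on the product of the curves is
empty or of codimension at least `7`; the number `a` of the quotient is the sum of that of `Y` and of
the number of the curves which are not elliptic. -/
inductive IsTowerN : (K : Type) → [Field K] → [Algebra ℂ K] → ℕ → ℕ → Prop
  | point (K : Type) [Field K] [Algebra ℂ K] [Algebra.EssFiniteType ℂ K]
      (h : Algebra.trdeg ℂ K = 0) : IsTowerN K 0 0
  | general (K : Type) [Field K] [Algebra ℂ K] [Algebra.EssFiniteType ℂ K] (d : ℕ)
      (h : Pool.Agent.W602.GT.GeneralType ℂ K d) : IsTowerN K d d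
  | cover (r N Q R : ℕ) (n q : Fin r → ℕ) (ℓ : ∀ i, Fin (q i) → Form (n i)) (V : Cover N Q R)
      (e : ((i : Fin r) × Fin (n i)) ≃ Fin N) (e' : ((i : Fin r) × Fin (q i)) ≃ Fin Q) (K : Type)
      [Field K] [Algebra ℂ K] (z : Fin (N + 1) → K) (y : Fin R → K)
      (hV : IsCover V e e' ℓ K z y) (hr : ¬ ∃ i, Reducible (ℓ i)) :
      IsTowerN K N (∑ i with ¬ CalabiYau V e' ℓ i, n i)
  | quotient (d s a : ℕ) (L : Type) [Field L] [Algebra ℂ L]
      (M : IntermediateField ℂ L) (hM : IsTowerN M d a) (F : Fin s → IntermediateField ℂ L)
      (G : Subgroup (L ≃ₐ[ℂ] L)) [Finite G] (σ : G →* Equiv.Perm (Fin s))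
      (hG : IsProductAction d s M F G σ) (h : MixedPos G σ F) (hF : ¬ HasRational F) :
      IsTowerN (fixedField G) (d + s) (a + nonElliptic F)

end Pool.Agent.TH766.IQ
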