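import Pool.Agent.TH766.IQ.Defs

/-!
# Iterated quotients, with weaker conditions: the definitions
-/

set_option autoImplicit false
set_option linter.overlappingInstances false

open FF IntermediateField Pool.Agent.W602.Cov Pool.Agent.W619.PQ
open Pool.Agent.W619.X Pool.Agent.W619.Y

namespace Pool.Agent.TH766.IQ

section

variable {n : ℕ}

/-- The elements of `Gate Lf L` are the leaves (`Lf p`) if `L` is empty. If the first member of `L` is
`(r, e)`, they are the sums `∑ i, c i * g i ^ e` of `r` terms, where `c i ∈ ℂ` and the `g i` belong
to `Gate Lf L'`, `L'` being the rest of `L`. -/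
def Gate (Lf : MvPolynomial (Fin (n + 1)) ℂ → Prop) :
    List (ℕ × ℕ) → MvPolynomial (Fin (n + 1)) ℂ → Prop
  | [], p => Lf p
  | ke :: L, p => ∃ (c : Fin ke.1 → ℂ) (g : Fin ke.1 → MvPolynomial (Fin (n + 1)) ℂ),
      (∀ i, Gate Lf L (g i)) ∧ p = ∑ i, MvPolynomial.C (c i) * g i ^ ke.2

/-- `F` is a nested sum of powers of the leaves, with at most `h + 1` levels, at most `s` terms in
each sum, and exponents at least `E`. The numbers of terms and the exponents are the same for all sums
of the same level. -/
def NestedSum (Lf : MvPolynomial (Fin (n + 1)) ℂ → Prop) (s E h : ℕ)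
    (F : MvPolynomial (Fin (n + 1)) ℂ) : Prop :=
  ∃ (r e : ℕ) (L : List (ℕ × ℕ)) (c : Fin r → ℂ) (g : Fin r → MvPolynomial (Fin (n + 1)) ℂ),
    r ≤ s ∧ E ≤ e ∧ L.length ≤ h ∧ (∀ ke ∈ L, 1 ≤ ke.1 ∧ ke.1 ≤ s ∧ E ≤ ke.2) ∧
      (∀ i, Gate Lf L (g i)) ∧ F = ∑ i, MvPolynomial.C (c i) * g i ^ e

/-- `K` is the function field, `d` the dimension and `y` the generic point of an irreducible component
of the projective variety `F = 0`, where the `F i` are nested sums of high powers of linear forms, or
all of them are forms and nested sums of high powers of monomials: at each of at most `h + 1` levels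
there are at most `s` summands, and the exponents are at least `E ≥ (n + 1) (h + 1) (2 s + 1) ^ 5`. -/
structure IsNestedComponent1 {ι : Type} (F : ι → MvPolynomial (Fin (n + 1)) ℂ) (s E h : ℕ)
    (K : Type) [Field K] [Algebra ℂ K] (d : ℕ) (y : Fin (n + 1) → K) : Prop where
  towers : (∀ i, NestedSum (fun p => ∃ a : Fin (n + 1) → ℂ,
      p = ∑ j, MvPolynomial.C (a j) * MvPolynomial.X j) s E h (F i)) ∨
    (∀ i, Pool.Agent.W602.GT.IsForm (F i) ∧ NestedSum (fun p => ∃ (α : Fin (n + 1) →₀ ℕ) (a : ℂ),
      p = MvPolynomial.monomial α a) s E h (F i))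
  bound : (n + 1) * ((h + 1) * (2 * s + 1) ^ 5) ≤ E
  point : Pool.Agent.W602.GT.SubVar F K d y
  component : Pool.Agent.W602.GT.IsComponent F y

end

/-- **The class of iterated quotients, with weaker conditions.** It is the smallest class of
projective varieties over `ℂ` (given by their function fields `K`, with their dimensions `d` and
statements `u`, which will be shown to hold exactly for the uniruled ones) which contains

* the point (`u` is false),
* the irreducible components of the projective varieties which are given by nested sums of high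
  powers of linear forms, or of monomials (`IsNestedComponent1`; `u`: it is ruled),
* the abelian covers of products of projective spaces which are branched over arbitrary arrangements
  of hyperplanes and have multiplicities at least `n i + 2` (`u`: one of the arrangements is
  reducible),

and which contains with `Y` all quotients `(Y × ∏ C j) / G`, for curves `C j` (with function fields
`F j`) and finite groups `G` which act on the product (with function field `L`) and permute the
curves (through `σ`), but do not have to preserve `Y`, such that `MixedNonneg` holds, for instance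
such that the fixed locus of each `g ≠ 1` in `G` on the product of the curves is empty or of
codimension at least `6` (`u`: that of `Y` holds or one of the curves is rational). -/
inductive IsTower1 : (K : Type) → [Field K] → [Algebra ℂ K] → ℕ → Prop → Prop
  | point (K : Type) [Field K] [Algebra ℂ K] [Algebra.EssFiniteType ℂ K]
      (h : Algebra.trdeg ℂ K = 0) : IsTower1 K 0 False
  | nested {n : ℕ} {ι : Type} (F : ι → MvPolynomial (Fin (n + 1)) ℂ) (s E h : ℕ) (K : Type)
      [Field K] [Algebra ℂ K] (d : ℕ) (y : Fin (n + 1) → K)
      (hy : IsNestedComponent1 F s E h K d y) : IsTower1 K d (Pool.Agent.W602.GT.Ruled ℂ K)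
  | cover (r N Q R : ℕ) (n q : Fin r → ℕ) (ℓ : ∀ i, Fin (q i) → Form (n i)) (V : Cover N Q R)
      (e : ((i : Fin r) × Fin (n i)) ≃ Fin N) (e' : ((i : Fin r) × Fin (q i)) ≃ Fin Q) (K : Type)
      [Field K] [Algebra ℂ K] (z : Fin (N + 1) → K) (y : Fin R → K)
      (hV : IsCover V e e' ℓ K z y) : IsTower1 K N (∃ i, Reducible (ℓ i))
  | quotient (d s : ℕ) (u : Prop) (L : Type) [Field L] [Algebra ℂ L]
      (M : IntermediateField ℂ L) (hM : IsTower1 M d u) (F : Fin s → IntermediateField ℂ L)
      (G : Subgroup (L ≃ₐ[ℂ] L)) [Finite G] (σ : G →* Equiv.Perm (Fin s))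
      (hG : IsProductAction d s M F G σ) (h : MixedNonneg G σ F) :
      IsTower1 (fixedField G) (d + s) (u ∨ HasRational F)

end Pool.Agent.TH766.IQ
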