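import Pool.Agent.TH766.IQ.Pairs
import Pool.Agent.TH766.IQ.DefsN

/-!
# Log canonical pairs on iterated quotients
-/

set_option autoImplicit false
set_option linter.overlappingInstances false
set_option maxHeartbeats 400000

open FF IntermediateField Pool.Agent.W602.Cov Pool.Agent.W619.PQ Pool.Agent.W619.PL
open Pool.Agent.W619.TW Pool.Agent.W619.X Pool.Agent.W619.Y Pool.Agent.TH194.LP

namespace Pool.Agent.TH766.IQ

theorem tower_ofN {K : Type} [iK : Field K] [iA : Algebra ℂ K] {d a : ℕ}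
    (h : IsTowerN K d a) : IsTower K d (a : WithBot ℕ) := by
  classical
  induction h with
  | point K h => exact IsTower.point K h
  | general K d h => exact IsTower.general K d h
  | cover r N Q R n q ℓ V e e' K z y hV hr =>
    have h1 := IsTower.cover r N Q R n q ℓ V e e' K z y hV
    rw [coverKappa, if_neg hr] at h1
    exact h1
  | quotient d s a L M hM F G σ hG h hF ih =>
    have h1 := IsTower.quotient d s a L M ih F G σ hG h
    rw [addCurves, if_neg hF] at h1
    exact_mod_cast h1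

/-- lc pairs with real boundary -/
theorem lc_pairsN {d s a : ℕ} {L : Type} [Field L] [Algebra ℂ L]
    (M : IntermediateField ℂ L) (hM : IsTowerN M d a)
    (F : Fin s → IntermediateField ℂ L) (G : Subgroup (L ≃ₐ[ℂ] L)) [Finite G]
    (σ : G →* Equiv.Perm (Fin s)) (hG : IsProductAction d s M F G σ)
    (B : ∀ j, Set (Place ℂ ↥(F j ⊓ fixedField (stb G σ j)))) (hB : ∀ j, (B j).Finite)
    (hinv : BdInv G σ F B) (h : LogMixedPos G σ F B)
    (δ : Place ℂ (fixedField G) → ℝ) (hδ : ∀ v, 0 ≤ δ v) (P : Set (Fin s))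
    (hP : ∀ j, j ∈ P ↔ ¬ IsNegative (inf_le_left : F j ⊓ fixedField (stb G σ j) ≤ F j) (B j) ∧
      ¬ IsFlat (inf_le_left : F j ⊓ fixedField (stb G σ j) ≤ F j) (B j))
    (hδP : BoundedByR (⨆ j : P, F j) (d + s) δ)
    (hpe : LPPsef ℂ (fixedField G) (d + s) (BdQ G σ F B) δ) :
    (∃ m : ℕ, 1 ≤ m ∧ ∃ ω : (Fin (d + s) → Derivation ℂ (fixedField G) (fixedField G)) →
        fixedField G,
      IsLPSec ℂ (fixedField G) (d + s) (BdQ G σ F B) δ {1} m 0 ω ∧ ∃ D, ω D ≠ 0) ∧
      (∀ b, LPKodGe ℂ (fixedField G) (d + s) (BdQ G σ F B) δ b ↔ b ≤ a + P.ncard) ∧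
      ∀ b, LPNumLe ℂ (fixedField G) (d + s) (BdQ G σ F B) δ b ↔ a + P.ncard ≤ b :=
  lc_pairs M (tower_ofN hM) F G σ hG B hB hinv h δ hδ P hP hδP hpe

/-- members which are not uniruled: the nested sums of high powers -/
theorem nestedN {n : ℕ} {ι : Type} (F : ι → MvPolynomial (Fin (n + 1)) ℂ) (s E h : ℕ) (K : Type)
    [Field K] [Algebra ℂ K] (d : ℕ) (y : Fin (n + 1) → K) (hy : IsNestedComponent F s E h K d y)
    (hr : ¬ Pool.Agent.W602.GT.Ruled ℂ K) : IsTowerN K d d := by
  have hess : Algebra.EssFiniteType ℂ K := Pool.Agent.W602.GT.essFinite hy.point.gen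
  rcases Pool.Agent.TH710.ND.general_psef_or_ruled hy.towers
      (Pool.Agent.TH710.ND.bnd_le hy.bound).1 hy.point hy.component with ⟨-, h2⟩ | ⟨-, h2⟩
  · exact IsTowerN.general K d h2
  · exact absurd h2 hr

end Pool.Agent.TH766.IQ
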