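import Pool.Agent.TH766.IQ.Defs
import Pool.Agent.TH766.CP.A1
import Pool.Agent.TH766.NT.Top
import Pool.Agent.TH756.PN.Fin
import Pool.Agent.TH710.ND.Sp
import Pool.Agent.TH466.QG.Low
import Pool.Agent.TH194.LP.Zero

/-!
# Iterated quotients: abundance
-/

set_option autoImplicit false
set_option linter.overlappingInstances false
set_option maxHeartbeats 400000

open FF IntermediateField Pool.Agent.W602.Cov Pool.Agent.W619.PQ Pool.Agent.W619.TW
open Pool.Agent.W619.X Pool.Agent.W619.Y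

namespace Pool.Agent.TH766.IQ

/-- `κ ≥ d` for varieties of general type -/
theorem kodTr_of_general {K : Type} [Field K] [Algebra ℂ K] {d : ℕ}
    (h : Pool.Agent.W602.GT.GeneralType ℂ K d) : KodTr ℂ K d d := by
  obtain ⟨-, N, hN, ω, h1, h2, D, hD, hD'⟩ := h
  refine Pool.Agent.TH766.CP.kodTr_of ⟨N, hN, ω, fun j => ⟨h1 j, fun P hP D hDP => ?_,
    fun P hP _ => h2 P hP j⟩, D, hD, hD'⟩
  refine h2 P hP j D fun i f hf => ?_
  by_cases h0 : f = 0
  · rw [h0, map_zero]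
    exact P.reg_zero
  · have h3 := P.reg_mul (hDP i f) hf
    rwa [div_mul_cancel₀ _ h0] at h3

section point

variable {K : Type} [Field K] [Algebra ℂ K]

theorem numLe_point (h : Algebra.trdeg ℂ K = 0) (Bd : Place ℂ K → Prop) : NumLe ℂ K 0 Bd 0 := by
  have halg : Algebra.IsAlgebraic ℂ K := trdeg_eq_zero_iff.1 h
  have hsurj : Function.Bijective (algebraMap ℂ K) :=
    IsAlgClosed.algebraMap_bijective_of_isIntegral
  let e : ℂ ≃ₐ[ℂ] K := AlgEquiv.ofBijective (Algebra.ofId ℂ K) hsurj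
  have hfin : Module.Finite ℂ K := Module.Finite.equiv e.toLinearEquiv
  have hrank : Module.finrank ℂ K = 1 := by
    rw [← e.toLinearEquiv.finrank_eq, Module.finrank_self]
  intro S
  refine ⟨1, fun m N _ hI => ?_⟩
  obtain ⟨ω, hω, -⟩ := hI
  let ev : ((Fin 0 → Derivation ℂ K K) → K) →ₗ[ℂ] K :=
    LinearMap.proj (default : Fin 0 → Derivation ℂ K K)
  have hker : LinearMap.ker ev = ⊥ := by
    rw [LinearMap.ker_eq_bot]
    intro f g hfg
    funext D
    rw [Subsingleton.elim D default]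
    exact hfg
  have h1 : LinearIndependent ℂ (ev ∘ ω) := hω.map' ev hker
  have h2 := h1.fintype_card_le_finrank
  rw [Fintype.card_fin, hrank] at h2
  simpa using h2

theorem kodTr_point : KodTr ℂ K 0 0 := by
  refine ⟨1, le_rfl, fun _ _ => 1, fun l => ⟨fun A D => ?_, fun v hv _ D hD => ?_,
    fun v _ h => h.elim⟩, default, fun _ => one_ne_zero, ?_⟩
  · simp
  · right
    exact ⟨1, Finset.mem_singleton_self 1, one_ne_zero, by simp [Place.ord_one]⟩
  · exact algebraicIndependent_empty_type_iff.2 (algebraMap ℂ K).injective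

end point

/-- `ν ≤ d` -/
theorem numLe_dim {K : Type} [Field K] [Algebra ℂ K] [Algebra.EssFiniteType ℂ K] {d : ℕ}
    (hd : Algebra.trdeg ℂ K = d) : NumLe ℂ K d (fun _ => False) d := by
  rcases d with _ | d
  · exact numLe_point (by simpa using hd) _
  · exact Pool.Agent.TH766.NT.numLe_top hd

/-- the conclusion -/
def Concl (K : Type) [Field K] [Algebra ℂ K] (d : ℕ) (κ : WithBot ℕ) : Prop :=
  (κ = ⊥ ∧ IsUniruled ℂ K d ∧ ¬ IsPsef ℂ K d (fun _ => False)) ∨
    ∃ a : ℕ, κ = a ∧ KodTr ℂ K d a ∧ NumLe ℂ K d (fun _ => False) a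

theorem fixed_ess {L : Type} [Field L] [Algebra ℂ L] [Algebra.EssFiniteType ℂ L]
    (G : Subgroup (L ≃ₐ[ℂ] L)) [Finite G] : Algebra.EssFiniteType ℂ (fixedField G) := by
  have hfinL : FiniteDimensional (fixedField G) L := by
    have hGal : IsGaloisGroup G (fixedField G) L := isGaloisGroup_fixed G
    exact IsGaloisGroup.finiteDimensional G (fixedField G) L
  exact Pool.Agent.TH766.CP.ess_below (E := L)

theorem concl_quotient {d s : ℕ} {κ : WithBot ℕ} {L : Type} [Field L] [Algebra ℂ L]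
    (hL : Algebra.trdeg ℂ L = (d + s : ℕ)) (M : IntermediateField ℂ L)
    [Algebra.EssFiniteType ℂ M] (hM : Algebra.trdeg ℂ M = d) (hκ : Concl M d κ)
    (F : Fin s → IntermediateField ℂ L) (hC : ∀ j, IsFF ℂ (F j)) (hsup : M ⊔ (⨆ j, F j) = ⊤)
    (G : Subgroup (L ≃ₐ[ℂ] L)) [Finite G] (σ : G →* Equiv.Perm (Fin s))
    (hσ : ∀ (g : G) j, ∀ f ∈ F j, (g : L ≃ₐ[ℂ] L) f ∈ F (σ g j)) (h : MixedPos G σ F)
    (κ' : WithBot ℕ) (h1 : (∃ j, ∃ t : F j, ℂ⟮t⟯ = ⊤) → κ' = ⊥)
    (h2 : (¬ ∃ j, ∃ t : F j, ℂ⟮t⟯ = ⊤) →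
      κ' = κ + (({j | ¬ IsElliptic (F j)}.ncard : ℕ) : WithBot ℕ)) :
    Concl (fixedField G) (d + s) κ' := by
  have halg := alg_of_top M F hsup
  obtain ⟨k1, k2⟩ := abM d s hL M hM F halg G σ hσ h
  obtain ⟨k3, k4, k5⟩ := k2 hsup
  by_cases hrat : ∃ j, ∃ t : F j, ℂ⟮t⟯ = ⊤
  · obtain ⟨u1, -, u2⟩ := rat_mixed d s hL M hM F hsup G hrat
    exact Or.inl ⟨h1 hrat, u2, u1⟩
  have hk := h2 hrat
  push Not at hrat
  rcases hκ with ⟨a0, a1, a2⟩ | ⟨a, a0, a1, a2⟩
  · left
    refine ⟨by rw [hk, a0, WithBot.bot_add], uniruled_down G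
      (Pool.Agent.W904.PG.main ℂ L d s M F hM hL hsup a1), fun hp => a2 (k5 hp).1⟩
  · right
    refine ⟨a + {j | ¬ IsElliptic (F j)}.ncard, by rw [hk, a0]; push_cast; rfl,
      (k1 (by simpa using hrat) _ a1).1, k3 (by simpa using hrat) _ a2⟩

theorem main {K : Type} [iK : Field K] [iA : Algebra ℂ K] {d : ℕ} {κ : WithBot ℕ}
    (h : IsTower K d κ) : Algebra.EssFiniteType ℂ K ∧ Algebra.trdeg ℂ K = d ∧ Concl K d κ := by
  classical
  induction h with
  | point K h =>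
    exact ⟨inferInstance, by simpa using h, Or.inr ⟨0, rfl, kodTr_point, numLe_point h _⟩⟩
  | general K d h =>
    exact ⟨inferInstance, h.1, Or.inr ⟨d, rfl, kodTr_of_general h, numLe_dim h.1⟩⟩
  | uniruled K d hd h =>
    exact ⟨inferInstance, hd, Or.inl ⟨rfl, h, (uniruled_neg d hd h).1⟩⟩
  | nested F s E h K d y hy =>
    have hess : Algebra.EssFiniteType ℂ K := Pool.Agent.W602.GT.essFinite hy.point.gen
    refine ⟨hess, hy.point.dim, ?_⟩
    rcases Pool.Agent.TH710.ND.general_psef_or_ruled hy.towers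
      (Pool.Agent.TH710.ND.bnd_le hy.bound).1 hy.point hy.component with ⟨h1, h2⟩ | ⟨h1, h2⟩
    · right
      refine ⟨d, if_neg ?_, kodTr_of_general h2, numLe_dim hy.point.dim⟩
      rintro ⟨C, σ, hσ, htop⟩
      exact Pool.Agent.W602.GT.not_psef_of hy.point.dim C hσ htop h1
    · left
      exact ⟨if_pos h2, Pool.Agent.TH466.QG.uniruled_below hy.point.dim h2,
        fun hp => h1 (Pool.Agent.TH766.CP.psef_of hp)⟩
  | cover r N Q R n q ℓ V e e' K z y hV =>
    have hK := hV.field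
    have hess : Algebra.EssFiniteType ℂ K := Pool.Agent.TH766.CP.ess_of_ff V hK
    have htr : Algebra.trdeg ℂ K = N :=
      Pool.Agent.W602.GT.trdeg_of_basis (Pool.Agent.TH152.AC.coords V hK).2.2
    refine ⟨hess, htr, ?_⟩
    rcases Pool.Agent.TH756.PN.abundanceP e e' hV.factors hV.dims V hV.free hK hV.cover.forms
      hV.cover.infinity hV.cover.degrees hV.mult
      (Finset.univ.filter fun i => ¬ CalabiYau V e' ℓ i) (fun i => by
        rw [Finset.mem_filter]
        exact ⟨fun h => h.2, fun h => ⟨Finset.mem_univ _, h⟩⟩) with ⟨⟨i, hi⟩, -, a2⟩ | ⟨a1, a2, a3⟩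
    · left
      exact ⟨if_pos ⟨i, hi⟩, Pool.Agent.TH766.CP.uniruled_of V hV.free hK
        (Pool.Agent.TH756.PR.reducible_lift e e' hV.cover.forms hV.cover.infinity hi),
        fun hp => a2 (Pool.Agent.TH766.CP.psef_of hp)⟩
    · right
      exact ⟨_, if_neg (by push Not; exact a1), Pool.Agent.TH766.CP.kodTr_of a2, a3⟩
  | quotient d s κ L M hM F G σ hG h ih =>
    obtain ⟨hess, htr, hk⟩ := ih
    have hC := hG.curve
    have hessL : Algebra.EssFiniteType ℂ L := ess_top M F hG.product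
    exact ⟨fixed_ess G, Pool.Agent.TH766.CP.trdeg_fixed hG.dim G,
      concl_quotient hG.dim M htr hk F hC hG.product G σ hG.permutes h _ (fun h => if_pos h)
        fun h => if_neg h⟩

/-- **The final form.** -/
theorem final {K : Type} [iK : Field K] [iA : Algebra ℂ K] {d : ℕ} {κ : WithBot ℕ}
    (h : IsTower K d κ) :
    (κ = ⊥ ∧ IsUniruled ℂ K d ∧ ¬ IsPsef ℂ K d (fun _ => False)) ∨
      ∃ a : ℕ, κ = a ∧ IsPsef ℂ K d (fun _ => False) ∧
        (∀ b, KodGe ℂ K d (fun _ => False) b ↔ b ≤ a) ∧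
        ∀ b, NumLe ℂ K d (fun _ => False) b ↔ a ≤ b := by
  obtain ⟨hess, htr, h1 | ⟨a, h1, h2, h3⟩⟩ := main h
  · exact Or.inl h1
  · right
    have hc : CharZero K := charZero_of_injective_algebraMap (algebraMap ℂ K).injective
    obtain ⟨e1, e2⟩ := Pool.Agent.TH194.LP.exact_zero
      (Pool.Agent.W300.PG.TRGE.main ℂ K d a htr h2) h3
    exact ⟨a, h1, psef_of_eff (eff_of_kodTr h2), e1, e2⟩

end Pool.Agent.TH766.IQ
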