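import Pool.Agent.TH766.IQ.Main

/-!
# Iterated quotients: Kodaira dimension `-∞` and uniruledness
-/

set_option autoImplicit false
set_option linter.overlappingInstances false
set_option maxHeartbeats 400000

open FF IntermediateField Pool.Agent.W602.Cov Pool.Agent.W619.PQ Pool.Agent.W619.TW
open Pool.Agent.W619.PL Pool.Agent.W619.X Pool.Agent.W619.Y

namespace Pool.Agent.TH766.IQ

/-- **The class of iterated quotients, with weaker conditions.** It is the smallest class of
projective varieties over `ℂ` (given by their function fields `K`, with their dimensions `d` and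
statements `u`, which will be shown to hold exactly for the uniruled ones) which contains

* the point (`u` is false),
* the irreducible components of the projective varieties which are given by nested sums of high
  powers of linear forms, or of monomials (`IsNestedComponent`; `u`: it is ruled),
* the abelian covers of products of projective spaces which are branched over arbitrary arrangements
  of hyperplanes and have multiplicities at least `n i + 2` (`u`: one of the arrangements is
  reducible),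

and which contains with `Y` all quotients `(Y × ∏ C j) / G`, for curves `C j` (with function fields
`F j`) and finite groups `G` which act on the product (with function field `L`) and permute the
curves (through `σ`), but do not have to preserve `Y`, such that `MixedNonneg` holds, for instance
such that the fixed locus of each `g ≠ 1` in `G` on the product of the curves is empty or of
codimension at least `6` (`u`: that of `Y` holds or one of the curves is rational). -/
inductive IsTower0 : (K : Type) → [Field K] → [Algebra ℂ K] → ℕ → Prop → Prop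
  | point (K : Type) [Field K] [Algebra ℂ K] [Algebra.EssFiniteType ℂ K]
      (h : Algebra.trdeg ℂ K = 0) : IsTower0 K 0 False
  | nested {n : ℕ} {ι : Type} (F : ι → MvPolynomial (Fin (n + 1)) ℂ) (s E h : ℕ) (K : Type)
      [Field K] [Algebra ℂ K] (d : ℕ) (y : Fin (n + 1) → K) (hy : IsNestedComponent F s E h K d y) :
      IsTower0 K d (Pool.Agent.W602.GT.Ruled ℂ K)
  | cover (r N Q R : ℕ) (n q : Fin r → ℕ) (ℓ : ∀ i, Fin (q i) → Form (n i)) (V : Cover N Q R)
      (e : ((i : Fin r) × Fin (n i)) ≃ Fin N) (e' : ((i : Fin r) × Fin (q i)) ≃ Fin Q) (K : Type)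
      [Field K] [Algebra ℂ K] (z : Fin (N + 1) → K) (y : Fin R → K)
      (hV : IsCover V e e' ℓ K z y) : IsTower0 K N (∃ i, Reducible (ℓ i))
  | quotient (d s : ℕ) (u : Prop) (L : Type) [Field L] [Algebra ℂ L]
      (M : IntermediateField ℂ L) (hM : IsTower0 M d u) (F : Fin s → IntermediateField ℂ L)
      (G : Subgroup (L ≃ₐ[ℂ] L)) [Finite G] (σ : G →* Equiv.Perm (Fin s))
      (hG : IsProductAction d s M F G σ) (h : MixedNonneg G σ F) :
      IsTower0 (fixedField G) (d + s) (u ∨ HasRational F)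

/-- the conclusion -/
def Concl0 (K : Type) [Field K] [Algebra ℂ K] (d : ℕ) (u : Prop) : Prop :=
  (u ∧ IsUniruled ℂ K d ∧ ¬ IsPsef ℂ K d (fun _ => False)) ∨
    (¬ u ∧ IsEff ℂ K d (fun _ => False))

theorem concl0_quotient {d s : ℕ} {u : Prop} {L : Type} [Field L] [Algebra ℂ L]
    (hL : Algebra.trdeg ℂ L = (d + s : ℕ)) (M : IntermediateField ℂ L)
    [Algebra.EssFiniteType ℂ M] (hM : Algebra.trdeg ℂ M = d) (hu : Concl0 M d u)
    (F : Fin s → IntermediateField ℂ L) (hC : ∀ j, IsFF ℂ (F j)) (hsup : M ⊔ (⨆ j, F j) = ⊤)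
    (G : Subgroup (L ≃ₐ[ℂ] L)) [Finite G] (σ : G →* Equiv.Perm (Fin s))
    (hσ : ∀ (g : G) j, ∀ f ∈ F j, (g : L ≃ₐ[ℂ] L) f ∈ F (σ g j)) (h : MixedNonneg G σ F) :
    Concl0 (fixedField G) (d + s) (u ∨ ∃ j, ∃ t : F j, ℂ⟮t⟯ = ⊤) := by
  have halg := alg_of_top M F hsup
  obtain ⟨v1, v2⟩ := nvM d s hL M hM F halg G σ hσ h
  by_cases hrat : ∃ j, ∃ t : F j, ℂ⟮t⟯ = ⊤
  · obtain ⟨u1, -, u2⟩ := rat_mixed d s hL M hM F hsup G hrat
    exact Or.inl ⟨Or.inr hrat, u2, u1⟩
  rcases hu with ⟨a0, a1, a2⟩ | ⟨a0, a1⟩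
  · left
    exact ⟨Or.inl a0, uniruled_down G (Pool.Agent.W904.PG.main ℂ L d s M F hM hL hsup a1),
      fun hp => a2 (v2 hsup hp).1⟩
  · right
    exact ⟨fun hh => hh.elim a0 hrat, v1 a1 (by simpa using hrat)⟩

theorem main0 {K : Type} [iK : Field K] [iA : Algebra ℂ K] {d : ℕ} {u : Prop}
    (h : IsTower0 K d u) : Algebra.EssFiniteType ℂ K ∧ Algebra.trdeg ℂ K = d ∧ Concl0 K d u := by
  classical
  induction h with
  | point K h =>
    exact ⟨inferInstance, by simpa using h, Or.inr ⟨id, eff_of_kodTr kodTr_point⟩⟩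
  | nested F s E h K d y hy =>
    have hess : Algebra.EssFiniteType ℂ K := Pool.Agent.W602.GT.essFinite hy.point.gen
    refine ⟨hess, hy.point.dim, ?_⟩
    rcases Pool.Agent.TH710.ND.general_psef_or_ruled hy.towers
      (Pool.Agent.TH710.ND.bnd_le hy.bound).1 hy.point hy.component with ⟨h1, h2⟩ | ⟨h1, h2⟩
    · right
      refine ⟨?_, eff_of_kodTr (kodTr_of_general h2)⟩
      rintro ⟨C, σ, hσ, htop⟩
      exact Pool.Agent.W602.GT.not_psef_of hy.point.dim C hσ htop h1
    · left
      exact ⟨h2, Pool.Agent.TH466.QG.uniruled_below hy.point.dim h2,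
        fun hp => h1 (Pool.Agent.TH766.CP.psef_of hp)⟩
  | cover r N Q R n q ℓ V e e' K z y hV =>
    have hK := hV.field
    have hess : Algebra.EssFiniteType ℂ K := Pool.Agent.TH766.CP.ess_of_ff V hK
    have htr : Algebra.trdeg ℂ K = N :=
      Pool.Agent.W602.GT.trdeg_of_basis (Pool.Agent.TH152.AC.coords V hK).2.2
    refine ⟨hess, htr, ?_⟩
    rcases Pool.Agent.TH756.PN.abundanceP e e' hV.factors hV.dims V hV.free hK hV.cover.forms
      hV.cover.infinity hV.cover.degrees hV.mult
      (Finset.univ.filter fun i => ¬ CalabiYau V e' ℓ i) (fun i => by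
        rw [Finset.mem_filter]
        exact ⟨fun h => h.2, fun h => ⟨Finset.mem_univ _, h⟩⟩) with ⟨⟨i, hi⟩, -, a2⟩ | ⟨a1, a2, a3⟩
    · left
      exact ⟨⟨i, hi⟩, Pool.Agent.TH766.CP.uniruled_of V hV.free hK
        (Pool.Agent.TH756.PR.reducible_lift e e' hV.cover.forms hV.cover.infinity hi),
        fun hp => a2 (Pool.Agent.TH766.CP.psef_of hp)⟩
    · right
      exact ⟨by push Not; exact a1, eff_of_kodTr (Pool.Agent.TH766.CP.kodTr_of a2)⟩
  | quotient d s u L M hM F G σ hG h ih =>
    obtain ⟨hess, htr, hk⟩ := ih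
    have hC := hG.curve
    have hessL : Algebra.EssFiniteType ℂ L := ess_top M F hG.product
    exact ⟨fixed_ess G, Pool.Agent.TH766.CP.trdeg_fixed hG.dim G,
      concl0_quotient hG.dim M htr hk F hC hG.product G σ hG.permutes h⟩

/-- **The final form.** -/
theorem final0 {K : Type} [iK : Field K] [iA : Algebra ℂ K] {d : ℕ} {u : Prop}
    (h : IsTower0 K d u) :
    [KodairaNeg ℂ K d, IsUniruled ℂ K d, ¬ IsPsef ℂ K d (fun _ => False),
      ¬ IsEff ℂ K d (fun _ => False), u].TFAE := by
  obtain ⟨hess, htr, hc⟩ := main0 h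
  tfae_have 1 ↔ 4 := kodairaNeg_of_not_eff.symm
  tfae_have 2 → 3 := fun h1 => (uniruled_neg d htr h1).1
  tfae_have 3 → 4 := fun h1 h2 => h1 (psef_of_eff h2)
  tfae_have 4 → 5 := fun h1 => by
    rcases hc with ⟨h2, -⟩ | ⟨-, h2⟩
    · exact h2
    · exact absurd h2 h1
  tfae_have 5 → 2 := fun h1 => by
    rcases hc with ⟨-, h2, -⟩ | ⟨h2, -⟩
    · exact h2
    · exact absurd h1 h2
  tfae_finish

/-- **The open form.** -/
theorem open0 {d s : ℕ} {u : Prop} {L : Type} [Field L] [Algebra ℂ L]
    (M : IntermediateField ℂ L) (hM : IsTower0 M d u) (F : Fin s → IntermediateField ℂ L)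
    (G : Subgroup (L ≃ₐ[ℂ] L)) [Finite G] (σ : G →* Equiv.Perm (Fin s))
    (hG : IsProductAction d s M F G σ)
    (B : ∀ j, Set (Place ℂ ↥(F j ⊓ fixedField (stb G σ j)))) (hB : ∀ j, (B j).Finite)
    (hinv : BdInv G σ F B) (h : LogMixedNonneg G σ F B) :
    [IsA1Uniruled ℂ (fixedField G) (d + s) (BdQ G σ F B),
      LogKodairaNeg ℂ (fixedField G) (d + s) (BdQ G σ F B),
      ¬ IsPsef ℂ (fixedField G) (d + s) (BdQ G σ F B),
      u ∨ ∃ j, IsNegative (inf_le_left : F j ⊓ fixedField (stb G σ j) ≤ F j) (B j)].TFAE := by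
  have hC := hG.curve
  have hL := hG.dim
  have hsup := hG.product
  have hσ := hG.permutes
  classical
  obtain ⟨hess, htr, hc⟩ := main0 hM
  have halg := alg_of_top M F hsup
  have hfin := final0 hM
  have hneg : KodairaNeg ℂ M d → u := fun h1 => (hfin.out 0 4).1 h1
  have hred : u → IsUniruled ℂ M d := fun h1 => (hfin.out 1 4).2 h1
  tfae_have 4 → 3 := by
    rintro h1 hp
    obtain ⟨h2, h3, -⟩ := (nvLM d s hL M htr F halg G σ hσ B hB hinv h).2 hsup hp
    rcases h1 with h1 | ⟨j, hj⟩
    · exact (uniruled_neg d htr (hred h1)).1 h2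
    · exact h3 j hj
  tfae_have 3 → 2 := fun h1 => Pool.Agent.TH766.CP.logKodairaNeg_of_not_psef h1
  tfae_have 2 → 1 := fun h1 => (a1LM d s hL M htr F halg G σ hσ B hB hinv h h1).2 hsup
    fun h2 => hred (hneg h2)
  tfae_have 1 → 3 := Pool.Agent.TH766.CP.not_psef_of_a1 (Pool.Agent.TH766.CP.trdeg_fixed hL G) _
  tfae_have 2 → 4 := by
    intro h1
    rcases (a1LM d s hL M htr F halg G σ hσ B hB hinv h h1).1 with h2 | h2
    · exact Or.inl (hneg h2)
    · exact Or.inr h2
  tfae_finish

end Pool.Agent.TH766.IQ
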