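import Pool.Agent.TH766.IQ.Nonneg
import Pool.Agent.TH766.IQ.DefsO

/-!
# Iterated quotients, with weaker conditions: the two classes are the same
-/

set_option autoImplicit false
set_option linter.overlappingInstances false
set_option maxHeartbeats 400000

open FF IntermediateField Pool.Agent.W602.Cov Pool.Agent.W619.PQ Pool.Agent.W619.TW
open Pool.Agent.W619.PL Pool.Agent.W619.X Pool.Agent.W619.Y

namespace Pool.Agent.TH766.IQ

theorem gate_iff {n : ℕ} (Lf : MvPolynomial (Fin (n + 1)) ℂ → Prop) (L : List (ℕ × ℕ)) :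
    ∀ p : MvPolynomial (Fin (n + 1)) ℂ, Gate Lf L p → Pool.Agent.TH710.ND.GateL Lf L p := by
  induction L with
  | nil => intro p hp; exact hp
  | cons ke L ih =>
    rintro p ⟨c, g, hg, hp⟩
    exact ⟨c, g, fun i => ih _ (hg i), hp⟩

theorem nested_iff {n : ℕ} {Lf : MvPolynomial (Fin (n + 1)) ℂ → Prop} {s E h : ℕ}
    {F : MvPolynomial (Fin (n + 1)) ℂ} (hF : NestedSum Lf s E h F) :
    Pool.Agent.TH710.ND.NestedIn Lf s E h F := by
  obtain ⟨r, e, L, c, g, h1, h2, h3, h4, h5, h6⟩ := hF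
  exact ⟨r, e, L, c, g, h1, h2, h3, h4, fun i => gate_iff _ _ _ (h5 i), h6⟩

theorem component_of {n : ℕ} {ι : Type} {F : ι → MvPolynomial (Fin (n + 1)) ℂ} {s E h : ℕ}
    {K : Type} [Field K] [Algebra ℂ K] {d : ℕ} {y : Fin (n + 1) → K}
    (hy : IsNestedComponent1 F s E h K d y) : IsNestedComponent F s E h K d y := by
  refine ⟨?_, hy.bound, hy.point, hy.component⟩
  rcases hy.towers with h1 | h1
  · exact Or.inl fun i => nested_iff (h1 i)
  · exact Or.inr fun i => ⟨(h1 i).1, nested_iff (h1 i).2⟩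

theorem tower_of {K : Type} [iK : Field K] [iA : Algebra ℂ K] {d : ℕ} {u : Prop}
    (h : IsTower1 K d u) : IsTower0 K d u := by
  induction h with
  | point K h => exact IsTower0.point K h
  | nested F s E h K d y hy => exact IsTower0.nested F s E h K d y (component_of hy)
  | cover r N Q R n q ℓ V e e' K z y hV => exact IsTower0.cover r N Q R n q ℓ V e e' K z y hV
  | quotient d s u L M hM F G σ hG h ih => exact IsTower0.quotient d s u L M ih F G σ hG h

/-- **The open form.** -/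
theorem open1 {d s : ℕ} {u : Prop} {L : Type} [Field L] [Algebra ℂ L]
    (M : IntermediateField ℂ L) (hM : IsTower1 M d u) (F : Fin s → IntermediateField ℂ L)
    (G : Subgroup (L ≃ₐ[ℂ] L)) [Finite G] (σ : G →* Equiv.Perm (Fin s))
    (hG : IsProductAction d s M F G σ)
    (B : ∀ j, Set (Place ℂ ↥(F j ⊓ fixedField (stb G σ j)))) (hB : ∀ j, (B j).Finite)
    (hinv : BdInv G σ F B) (h : LogMixedNonneg G σ F B) :
    [IsA1Uniruled ℂ (fixedField G) (d + s) (BdQ G σ F B),
      LogKodairaNeg ℂ (fixedField G) (d + s) (BdQ G σ F B),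
      ¬ IsPsef ℂ (fixedField G) (d + s) (BdQ G σ F B),
      u ∨ ∃ j, IsNegative (inf_le_left : F j ⊓ fixedField (stb G σ j) ≤ F j) (B j)].TFAE ∧
    (u ↔ IsUniruled ℂ M d) :=
  ⟨open0 M (tower_of hM) F G σ hG B hB hinv h, (final0 (tower_of hM)).out 4 1⟩

end Pool.Agent.TH766.IQ
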