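import Pool.Agent.TH766.IQ.Main
import Pool.Agent.TH194.LP.Main
import Pool.Agent.TH194.LP.Exact
import Pool.Agent.W619.Y.PFin

/-!
# Pairs on iterated quotients
-/

set_option autoImplicit false
set_option linter.overlappingInstances false
set_option maxHeartbeats 400000

open FF IntermediateField Pool.Agent.W619.PQ Pool.Agent.W619.PL Pool.Agent.W619.TW
open Pool.Agent.W619.X Pool.Agent.W619.Y Pool.Agent.TH194.LP

namespace Pool.Agent.TH766.IQ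

/-- the values for a member of the class with `κ ≥ 0` -/
theorem main_nat {K : Type} [iK : Field K] [iA : Algebra ℂ K] {d a : ℕ}
    (h : IsTower K d (a : WithBot ℕ)) : Algebra.EssFiniteType ℂ K ∧ Algebra.trdeg ℂ K = d ∧
      KodTr ℂ K d a ∧ NumLe ℂ K d (fun _ => False) a := by
  obtain ⟨h1, h2, ⟨h3, -⟩ | ⟨b, h3, h4, h5⟩⟩ := main h
  · exact absurd h3 (WithBot.coe_ne_bot)
  · have h6 : a = b := WithBot.coe_injective h3
    subst h6
    exact ⟨h1, h2, h4, h5⟩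

/-- klt pairs -/
theorem klt_pairs {d s a : ℕ} {L : Type} [Field L] [Algebra ℂ L]
    (M : IntermediateField ℂ L) (hM : IsTower M d (a : WithBot ℕ))
    (F : Fin s → IntermediateField ℂ L) (G : Subgroup (L ≃ₐ[ℂ] L)) [Finite G]
    (σ : G →* Equiv.Perm (Fin s)) (hG : IsProductAction d s M F G σ) (h : MixedPos G σ F)
    (δ : Place ℂ (fixedField G) → ℚ) (hδ : ∀ v, 0 ≤ δ v) (P : Set (Fin s))
    (hP : ∀ j, j ∈ P ↔ (¬ ∃ t : F j, ℂ⟮t⟯ = ⊤) ∧ ¬ IsElliptic (F j))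
    (hδP : BoundedBy (⨆ j : P, F j) (d + s) δ)
    (hpe : PairPsef ℂ (fixedField G) (d + s) δ) :
    (∀ j, ¬ ∃ t : F j, ℂ⟮t⟯ = ⊤) ∧
      PairKodGe ℂ (fixedField G) (d + s) δ (a + P.ncard) ∧
      PairNumLe ℂ (fixedField G) (d + s) δ (a + P.ncard) := by
  obtain ⟨hess, htr, ha, hν⟩ := main_nat hM
  have hC := hG.curve
  have hL := hG.dim
  have hsup := hG.product
  have hσ := hG.permutes
  obtain ⟨k1, k2⟩ := pairF d s hL M htr F hsup G σ hσ h δ hδ P hP hδP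
  have h3 : ∀ j, ¬ ∃ t : F j, ℂ⟮t⟯ = ⊤ := fun j hj => k1 ⟨j, hj⟩ hpe
  exact ⟨h3, k2 h3 _ ha hν⟩

/-- lc pairs with real boundary -/
theorem lc_pairs {d s a : ℕ} {L : Type} [Field L] [Algebra ℂ L]
    (M : IntermediateField ℂ L) (hM : IsTower M d (a : WithBot ℕ))
    (F : Fin s → IntermediateField ℂ L) (G : Subgroup (L ≃ₐ[ℂ] L)) [Finite G]
    (σ : G →* Equiv.Perm (Fin s)) (hG : IsProductAction d s M F G σ)
    (B : ∀ j, Set (Place ℂ ↥(F j ⊓ fixedField (stb G σ j)))) (hB : ∀ j, (B j).Finite)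
    (hinv : BdInv G σ F B) (h : LogMixedPos G σ F B)
    (δ : Place ℂ (fixedField G) → ℝ) (hδ : ∀ v, 0 ≤ δ v) (P : Set (Fin s))
    (hP : ∀ j, j ∈ P ↔ ¬ IsNegative (inf_le_left : F j ⊓ fixedField (stb G σ j) ≤ F j) (B j) ∧
      ¬ IsFlat (inf_le_left : F j ⊓ fixedField (stb G σ j) ≤ F j) (B j))
    (hδP : BoundedByR (⨆ j : P, F j) (d + s) δ)
    (hpe : LPPsef ℂ (fixedField G) (d + s) (BdQ G σ F B) δ) :
    (∃ m : ℕ, 1 ≤ m ∧ ∃ ω : (Fin (d + s) → Derivation ℂ (fixedField G) (fixedField G)) →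
        fixedField G,
      IsLPSec ℂ (fixedField G) (d + s) (BdQ G σ F B) δ {1} m 0 ω ∧ ∃ D, ω D ≠ 0) ∧
      (∀ b, LPKodGe ℂ (fixedField G) (d + s) (BdQ G σ F B) δ b ↔ b ≤ a + P.ncard) ∧
      ∀ b, LPNumLe ℂ (fixedField G) (d + s) (BdQ G σ F B) δ b ↔ a + P.ncard ≤ b := by
  obtain ⟨hess, htr, ha, hν⟩ := main_nat hM
  have hC := hG.curve
  have hL := hG.dim
  have hsup := hG.product
  have hσ := hG.permutes
  obtain ⟨h1, h2, h3⟩ := lp_ab d s hL M htr F hsup G σ hσ B hB hinv h δ hδ P hP hδP _ ha hν hpe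
  refine ⟨?_, exact_of h2 h3⟩
  obtain ⟨m, hm1, hm2⟩ := h2
  obtain ⟨ω, hω, hω2⟩ := hm2 1 le_rfl
  have hi : 0 < 1 ^ (a + P.ncard) := by simp
  refine ⟨m, hm1, ω ⟨0, hi⟩, ?_, Function.ne_iff.1 (hω.ne_zero ⟨0, hi⟩)⟩
  have h4 := hω2 ⟨0, hi⟩
  rwa [one_mul] at h4

end Pool.Agent.TH766.IQ
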